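import Pool.Agent.U881.LF.Pet

/-!
# `1/2`-flow-pairs: graphs without an induced linear forest (MP_e59a69_co)

Let `F` be a linear forest with nine vertices and at least four edges, two of them at the same
vertex, which does not contain `2P_3 + P_2` as an induced subgraph (there are 17 of them:
`P_9`, `P_8 + P_1`, `P_7 + 2P_1`, `P_6 + P_2 + P_1`, `P_6 + 3P_1`, `P_5 + P_4`,
`P_5 + P_3 + P_1`, `P_5 + 2P_2`, `P_5 + P_2 + 2P_1`, `P_5 + 4P_1`, `2P_4 + P_1`,
`P_4 + P_3 + 2P_1`, `P_4 + 2P_2 + P_1`, `P_4 + P_2 + 3P_1`, `2P_3 + 3P_1`, `P_3 + 3P_2`,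
`P_3 + 2P_2 + 2P_1`).
Let `G` be a bridgeless multigraph without an induced copy of `F`.  Then `G` has a `1/2`-flow-pair,
and at every vertex with exactly three edges (loops not counted) every admissible choice of the
values extends to a `1/2`-flow-pair of `G`.  The order, the degrees, the connectivity and the width
parameters of `G` are arbitrary.

Proof.  Let `H` be obtained from `G` by contraction of disjoint connected vertex sets, without this
property and with as few edges (apart from loops) as possible.  Induced copies of `F` in `H` can be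
lifted to `G` (`U881/LF/Lift`); so `H` has no induced copy of `F`.  By the theorem of `U881/LF/Main`
(handed in for MP_e6539c_co, LinearForests), `H` has a nowhere-zero 4-flow or ten classes of vertices
form a Petersen graph, and the pairs are obtained by induction with the gluing theorems
`N393/C13/Hfp` of the library.
-/

set_option autoImplicit false

namespace Pool.Agent.Results.MP_e59a69_co.LinearForests

open Finset Pool.Agent.H160R2.HF Pool.Agent.R129.Hfp Pool.Agent.U881.LF

/-- `α e, β e` are admissible values of a `1/2`-flow-pair at the edges `e` of `w` (without loops):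
the two sums of the outgoing values are zero, `|α e| ≤ 1`, `|β e| ≤ 3`, and `|β e| ≥ 2` if
`α e = 0`. -/
def Admissible {V E : Type} [Fintype V] [Fintype E] [DecidableEq V] [DecidableEq E]
    (G : OrGraph V E) (w : V) (α β : E → ℤ) : Prop :=
  ∑ e ∈ G.cut {w}, (if G.t e = w then α e else - α e) = 0 ∧
  ∑ e ∈ G.cut {w}, (if G.t e = w then β e else - β e) = 0 ∧
  ∀ e ∈ G.cut {w}, |α e| ≤ 1 ∧ |β e| ≤ 3 ∧ (α e = 0 → 2 ≤ |β e|)

theorem n1_of {V E : Type} [Fintype V] [Fintype E] [DecidableEq V] [DecidableEq E]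
    {G : OrGraph V E} (hb : ∀ X : Finset V, (G.cut X).card ≠ 1) :
    Pool.Agent.TH362.TF.N1 G.t G.h univ := by
  intro x h
  apply hb (univ.filter (fun v => x v = true))
  rw [← h]
  congr 1
  ext e
  rw [Pool.Agent.R129.Hfp.mem_cut, mem_filter, mem_filter]
  unfold Pool.Agent.TH362.TF.cut
  rw [mem_filter]
  cases h1 : x (G.t e) <;> cases h2 : x (G.h e) <;> simp

/-- Let `F` be a linear forest on the vertices `0, ..., 8` (a spanning subgraph of the path
`0, 1, ..., 8`) with at least four edges, two of which have a common end, which has no induced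
subgraph `2P_3 + P_2` (with the vertices `q 0, ..., q 7` and the edges `{q i, q (i + 1)}`,
`i ∉ {2, 5}`).  Let `G` be a bridgeless multigraph which has no induced copy of `F`: there are no nine
different vertices `p 0, ..., p 8` such that `p i` and `p j` are joined by an edge if and only if `i`
and `j` are adjacent in `F`.  Then `G` has a `1/2`-flow-pair, and all admissible values at a vertex
with three edges extend. -/
theorem result (F : SimpleGraph (Fin 9)) (hF : F ≤ SimpleGraph.pathGraph 9)
    (h4 : 4 ≤ F.edgeSet.ncard) (h3 : ∃ a b c, a ≠ c ∧ F.Adj a b ∧ F.Adj b c)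
    (hq : ¬ ∃ q : Fin 8 → Fin 9, Function.Injective q ∧
      ∀ i j, i < j → (F.Adj (q i) (q j) ↔ (i.val + 1 = j.val ∧ i.val ≠ 2 ∧ i.val ≠ 5)))
    (V E : Type) [Fintype V] [DecidableEq V] [Fintype E] [DecidableEq E]
    (G : OrGraph V E) (hB : G.Bridgeless)
    (hp : ¬ ∃ p : Fin 9 → V, Function.Injective p ∧ ∀ i j, i ≠ j →
      ((∃ e, (G.t e = p i ∧ G.h e = p j) ∨ (G.t e = p j ∧ G.h e = p i)) ↔ F.Adj i j)) :
    (∃ φ₂ φ₄ : E → ℤ, G.IsHalfFlowPair φ₂ φ₄) ∧
      ∀ w, (G.cut {w}).card = 3 → ∀ α β : E → ℤ, Admissible G w α β →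
        ∃ φ₂ φ₄ : E → ℤ, G.IsHalfFlowPair φ₂ φ₄ ∧ ∀ e ∈ G.cut {w}, φ₂ e = α e ∧ φ₄ e = β e := by
  obtain ⟨h1, h2⟩ := hp_lf (goodM_of F hF h4 h3 hq) G.t G.h (n1_of (G.cut_card_ne_one hB))
    (no_has_of F hF hp)
  exact ⟨h1, fun w hw α β ⟨a, b, c⟩ => h2 w hw α β a b c⟩

end Pool.Agent.Results.MP_e59a69_co.LinearForests
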