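import Pool.Agent.R129.Hfp.Ears
import Pool.Agent.R129.Hfp.Main
import Pool.Agent.U875.TP.Class
import Pool.Agent.U605.DD.Main

/-!
# Half flow pairs: graphs without wide spread sets (MP_e59a69_co)

Every finite multigraph without cut edges which satisfies the condition `NoWideSpread` (below) has a
`1/2`-flow-pair.

For integers `d ≥ 4` and `r` the radius of a vertex is `r` if it has at least `d` neighbours, otherwise
zero.  A set of vertices is spread if the distance of any two of them is greater than the sum of the
radii; it is wide if the distance of some two of them is greater than two plus the sum of the radii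
and for some five of them the pairwise distances are greater than one plus the sum of the radii.  The
condition `NoWideSpread`: for some `d ≥ 4` and `r` every circuit of the underlying simple graph with at
most `2 r` vertices contains a vertex with fewer than `d` neighbours (for `r = 1` there is no such
circuit), and no spread set with at least `18 - 6 / (d / 2 - 1)` vertices (12 for `d = 4`, 15 for
`d = 6`, 18 for `d ≥ 16`) is wide.

For example, all vertices have at least four neighbours, and
* the diameter is at most four, or
* there is a dominating set with at most eleven vertices, or
* there are fewer than sixty vertices, or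
* of any five vertices two have distance at most three, or
* the underlying simple graph has no circuit with at most `2 r` vertices, and its diameter is at most
  `2 r + 2` or it has fewer than `12 (2 * 3 ^ r - 1)` vertices.

Proof.  Let `H` be a quotient of `G` without nowhere-zero 4-flow and without Petersen quotient such
that all proper quotients of `H` have a flow.  The starting library shows that `H` has no circuit of
length at most four, 18 vertices of odd degree with degree sum at most 66, at least twelve vertices of
degree three, that `k ≥ 2` vertices of `H` span at most `2 k - 3` edges, and that five of any twelve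
vertices are pairwise nonadjacent.  New here: two vertices of degree three have distance at least
three in `H` (if not, every vertex has at most three neighbours of degree three, and there are at most
ten vertices of degree three); and a class with fewer than `d` boundary edges all vertices of which
have at least `d` neighbours contains the ball with radius `r` around some vertex (a vertex with
greatest distance to the boundary: two of its neighbours have the same nearest boundary vertex, and
this gives a circuit with at most `2 r` vertices).  The centres of such balls in the classes with fewer
than `d` boundary edges form a wide spread set of `G`.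
So `G` has a nowhere-zero 4-flow, or ten classes of vertices form a Petersen graph; the condition
`NoMq` is inherited by quotients, and the flow pairs of the ten smaller graphs in which the vertices
outside of one class are identified can be glued (`R129/Hfp`, `U875/TP`).
-/

set_option autoImplicit false

namespace Pool.Agent.Results.MP_e59a69_co.SpreadSets

open Finset Pool.Agent.H160R2.HF Pool.Agent.R129.Hfp Pool.Agent.U875.TP
open Pool.Agent.U605.DD

/-- `α e, β e` are admissible values of a `1/2`-flow-pair at the edges `e` of `w` (without loops):
the two sums of the outgoing values are zero, `|α e| ≤ 1`, `|β e| ≤ 3`, and `|β e| ≥ 2` if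
`α e = 0`. -/
def Admissible {V E : Type} [Fintype V] [Fintype E] [DecidableEq V] [DecidableEq E]
    (G : OrGraph V E) (w : V) (α β : E → ℤ) : Prop :=
  ∑ e ∈ G.cut {w}, (if G.t e = w then α e else - α e) = 0 ∧
  ∑ e ∈ G.cut {w}, (if G.t e = w then β e else - β e) = 0 ∧
  ∀ e ∈ G.cut {w}, |α e| ≤ 1 ∧ |β e| ≤ 3 ∧ (α e = 0 → 2 ≤ |β e|)

/-- Let `G` be a bridgeless multigraph which satisfies the condition.  Then `G` has a
`1/2`-flow-pair, and all admissible values at a vertex with three edges extend. -/
theorem result (V E : Type) [Fintype V] [DecidableEq V] [Fintype E] [DecidableEq E]
    (G : OrGraph V E) (hB : G.Bridgeless) (h : NoWideSpread G.t G.h) :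
    (∃ φ₂ φ₄ : E → ℤ, G.IsHalfFlowPair φ₂ φ₄) ∧
      ∀ w, (G.cut {w}).card = 3 → ∀ α β : E → ℤ, Admissible G w α β →
        ∃ φ₂ φ₄ : E → ℤ, G.IsHalfFlowPair φ₂ φ₄ ∧ ∀ e ∈ G.cut {w}, φ₂ e = α e ∧ φ₄ e = β e := by
  obtain ⟨h1, h2⟩ := main (fun G' => NoMq G'.t G'.h)
    (fun G' ρ h => inh_noMq.map (F := ∅) ρ h)
    (fun G' h hb => by
      rcases noMq_flow h (n1_of hb) with h | h
      · exact Or.inl (nzK_of h)
      · exact Or.inr h) _ G rfl (noMq_of_spread h) (G.cut_card_ne_one hB)
  exact ⟨h1, fun w hw α β ⟨a, b, c⟩ => h2 w hw α β a b c⟩

end Pool.Agent.Results.MP_e59a69_co.SpreadSets
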