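import Pool.Agent.U513.TH.Hfp

/-!
# `1/2`-flow-pairs: small circuits, paths or theta graphs (MP_e59a69_co)

Let `G` be a bridgeless multigraph which satisfies the condition below.  Then `G` has a
`1/2`-flow-pair, and at every vertex with exactly three edges (loops not counted) every admissible
choice of the values extends to a `1/2`-flow-pair of `G`.

The condition is one of the following; the order, the degrees and the connectivity of `G` are
arbitrary.
* no circuit of `G` has more than fifteen vertices;
* no path of `G` has more than sixteen vertices;
* (this includes both) `G` contains no theta graph with at least 17 vertices which contains a circuit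
  with at least 16 vertices.  A theta graph consists of two vertices and three paths between them
  which have no common inner vertices.

Proof.  Theta graphs of a contraction of disjoint connected vertex sets lift to theta graphs of `G`
in which the three paths are not shorter (`U513/TH/Lift`): the three ends of the paths in a
contracted set are joined by a tripod.  A minimal contraction `H` of `G` without nowhere-zero 4-flow
and without Petersen quotient has no circuits with at most four vertices, minimum degree at least
three and no separating vertex, apart from isolated vertices, and it has at least 18 vertices of odd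
degree (library).  New: a graph with these properties has a circuit with at least sixteen vertices.
If a longest circuit has fourteen or fifteen vertices, the graph contains it together with further
ears, where the next ear starts at a vertex of degree two of the present subgraph or, if there is
none, has new vertices.  A search over all ears shows that there is no such graph; the certificate of
the search, which also uses that subgraphs which are excluded already do not occur, is checked by the
kernel (`U513/C15`).  For shorter circuits this is the theorem on circumference thirteen of the
library.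
So `G` has a nowhere-zero 4-flow or ten classes of vertices form a Petersen graph, and the pairs are
obtained by induction with the gluing theorems `N393/C13/Hfp` of the library.
-/

set_option autoImplicit false

namespace Pool.Agent.Results.MP_e59a69_co.ThetaGraphs

open Finset Pool.Agent.H160R2.HF Pool.Agent.R129.Hfp Pool.Agent.U513.TH

/-- `α e, β e` are admissible values of a `1/2`-flow-pair at the edges `e` of `w` (without loops):
the two sums of the outgoing values are zero, `|α e| ≤ 1`, `|β e| ≤ 3`, and `|β e| ≥ 2` if
`α e = 0`. -/
def Admissible {V E : Type} [Fintype V] [Fintype E] [DecidableEq V] [DecidableEq E]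
    (G : OrGraph V E) (w : V) (α β : E → ℤ) : Prop :=
  ∑ e ∈ G.cut {w}, (if G.t e = w then α e else - α e) = 0 ∧
  ∑ e ∈ G.cut {w}, (if G.t e = w then β e else - β e) = 0 ∧
  ∀ e ∈ G.cut {w}, |α e| ≤ 1 ∧ |β e| ≤ 3 ∧ (α e = 0 → 2 ≤ |β e|)

theorem n1_of {V E : Type} [Fintype V] [Fintype E] [DecidableEq V] [DecidableEq E]
    {G : OrGraph V E} (hb : ∀ X : Finset V, (G.cut X).card ≠ 1) :
    Pool.Agent.TH362.TF.N1 G.t G.h univ := by
  intro x h
  apply hb (univ.filter (fun v => x v = true))
  rw [← h]
  congr 1
  ext e
  rw [Pool.Agent.R129.Hfp.mem_cut, mem_filter, mem_filter]
  unfold Pool.Agent.TH362.TF.cut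
  rw [mem_filter]
  cases h1 : x (G.t e) <;> cases h2 : x (G.h e) <;> simp

/-- Let `G` be a bridgeless multigraph which satisfies the condition.  Then `G` has a `1/2`-flow-pair, and all admissible values at a
vertex with three edges extend. -/
theorem result (V E : Type) [Fintype V] [DecidableEq V] [Fintype E] [DecidableEq E]
    (G : OrGraph V E) (hB : G.Bridgeless) (hc : Condition G.t G.h) :
    (∃ φ₂ φ₄ : E → ℤ, G.IsHalfFlowPair φ₂ φ₄) ∧
      ∀ w, (G.cut {w}).card = 3 → ∀ α β : E → ℤ, Admissible G w α β →
        ∃ φ₂ φ₄ : E → ℤ, G.IsHalfFlowPair φ₂ φ₄ ∧ ∀ e ∈ G.cut {w}, φ₂ e = α e ∧ φ₄ e = β e := by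
  obtain ⟨h1, h2⟩ := hp G.t G.h (n1_of (G.cut_card_ne_one hB)) (NoTheta.of hc)
  exact ⟨h1, fun w hw α β ⟨a, b, c⟩ => h2 w hw α β a b c⟩

end Pool.Agent.Results.MP_e59a69_co.ThetaGraphs
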